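import Mathlib

set_option autoImplicit false

namespace Pool.Agent.Y214.LinSub

open Polynomial

/-- A polynomial `a X ^ m + b` over `K[t]` with `a, b` coprime and `b` separable non-constant is
irreducible. -/
theorem irreducible_eis {K : Type*} [Field K] {a b : K[X]} (hab : IsCoprime a b)
    (hb : b.Separable) (hb0 : 0 < b.natDegree) {m : ℕ} (hm : 0 < m) :
    Irreducible (C a * X ^ m + C b : K[X][X]) := by
  have hbne : b ≠ 0 := by rintro rfl; simp at hb0
  have hbu : ¬ IsUnit b := by
    intro h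
    rw [natDegree_eq_zero_of_isUnit h] at hb0
    exact lt_irrefl _ hb0
  obtain ⟨π, hπ, hπb⟩ := WfDvdMonoid.exists_irreducible_factor hbu hbne
  have hπp : Prime π := hπ.prime
  have ha0 : a ≠ 0 := by
    rintro rfl
    rw [isCoprime_zero_left] at hab
    exact hbu hab
  have hπa : ¬ π ∣ a := fun h => hπ.not_isUnit (hab.isUnit_of_dvd' h hπb)
  have hnat : (C a * X ^ m + C b : K[X][X]).natDegree = m := by
    rw [natDegree_add_C, natDegree_C_mul_X_pow _ _ ha0]
  have hlead : (C a * X ^ m + C b : K[X][X]).leadingCoeff = a := by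
    rw [leadingCoeff, hnat, coeff_add, coeff_C_mul_X_pow, if_pos rfl, coeff_C, if_neg hm.ne',
      add_zero]
  have hprime : (Ideal.span {π}).IsPrime := (Ideal.span_singleton_prime hπp.ne_zero).2 hπp
  have hprim : (C a * X ^ m + C b : K[X][X]).IsPrimitive := by
    intro r hr
    rw [C_dvd_iff_dvd_coeff] at hr
    have h1 := hr m
    have h2 := hr 0
    rw [coeff_add, coeff_C_mul_X_pow, if_pos rfl, coeff_C, if_neg hm.ne', add_zero] at h1
    rw [coeff_add, coeff_C_mul_X_pow, if_neg hm.ne, coeff_C_zero, zero_add] at h2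
    exact hab.isUnit_of_dvd' h1 h2
  refine IsEisensteinAt.irreducible (𝓟 := Ideal.span {π}) ⟨?_, ?_, ?_⟩ hprime hprim
    (by rw [hnat]; exact hm)
  · rw [hlead, Ideal.mem_span_singleton]
    exact hπa
  · intro i hi
    rw [hnat] at hi
    rw [coeff_add, coeff_C_mul_X_pow, if_neg hi.ne, zero_add, coeff_C]
    split_ifs
    · rw [Ideal.mem_span_singleton]; exact hπb
    · exact zero_mem _
  · rw [coeff_add, coeff_C_mul_X_pow, if_neg hm.ne, zero_add, coeff_C_zero, pow_two,
      Ideal.span_singleton_mul_span_singleton, Ideal.mem_span_singleton]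
    intro h
    exact hπ.not_isUnit (hb.squarefree _ h)

theorem quad_facts {R : Type*} [CommRing R] [Nontrivial R] (A B : R) :
    (X ^ 2 + C A * X + C B : R[X]).natDegree = 2 ∧ (X ^ 2 + C A * X + C B : R[X]).Monic ∧
    (X ^ 2 + C A * X + C B : R[X]).nextCoeff = A ∧ (X ^ 2 + C A * X + C B : R[X]).coeff 0 = B ∧
    (X ^ 2 + C A * X + C B : R[X]).coeff 1 = A := by
  have hdeg : (X ^ 2 + C A * X + C B : R[X]).natDegree = 2 := by
    have h1 : (X ^ 2 + C A * X + C B : R[X]) = C 1 * X ^ 2 + C A * X + C B := by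
      rw [C_1, one_mul]
    rw [h1]
    exact natDegree_quadratic one_ne_zero
  refine ⟨hdeg, ?_, ?_, ?_, ?_⟩
  · rw [Monic, leadingCoeff, hdeg]
    simp [coeff_X, coeff_C]
  · rw [nextCoeff_of_natDegree_pos (by rw [hdeg]; norm_num), hdeg]
    simp [coeff_X, coeff_C]
  · simp
  · simp [coeff_X, coeff_C]

/-- The quadratic `Y ^ 2 + x ^ (p + j) Y + κ x ^ (2 p)` is irreducible over `K[x]`. -/
theorem irreducible_quad {K : Type*} [Field K] {p j : ℕ} (hj : 0 < j) {κ : K} (hκ : κ ≠ 0) :
    Irreducible (X ^ 2 + C (X ^ (p + j)) * X + C (C κ * X ^ (2 * p)) : K[X][X]) := by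
  set E : K[X][X] := X ^ 2 + C (X ^ (p + j)) * X + C (C κ * X ^ (2 * p)) with hE
  obtain ⟨hdeg, hmon, -, hE0, hE1⟩ := quad_facts (X ^ (p + j) : K[X]) (C κ * X ^ (2 * p))
  rw [← hE] at hdeg hmon hE0 hE1
  rw [hmon.irreducible_iff_natDegree]
  refine ⟨?_, ?_⟩
  · intro h
    rw [h] at hdeg
    simp at hdeg
  · intro f g hf hg hfg
    by_contra hcon
    push Not at hcon
    have hsum : f.natDegree + g.natDegree = 2 := by
      rw [← hf.natDegree_mul hg, hfg, hdeg]
    have hf1 : f.natDegree = 1 := by omega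
    have hg1 : g.natDegree = 1 := by omega
    have hfe : f = X + C (f.coeff 0) := hf.eq_X_add_C hf1
    have hge : g = X + C (g.coeff 0) := hg.eq_X_add_C hg1
    set r := f.coeff 0
    set s := g.coeff 0
    have e1 : ((X + C r) * (X + C s) : K[X][X]) = X ^ 2 + C (r + s) * X + C (r * s) := by
      rw [C_add, C_mul]; ring
    obtain ⟨-, -, -, h0', h1'⟩ := quad_facts (r + s) (r * s)
    rw [← e1, ← hfe, ← hge, hfg] at h0' h1'
    have h0 : r * s = C κ * X ^ (2 * p) := by rw [← h0', hE0]
    have h1 : r + s = X ^ (p + j) := by rw [← h1', hE1]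
    have hr : r ∣ C κ * X ^ (2 * p) := ⟨s, h0.symm⟩
    have hκu : IsUnit (C κ : K[X]) := isUnit_C.2 hκ.isUnit
    rw [hκu.dvd_mul_left, dvd_prime_pow prime_X] at hr
    obtain ⟨a, ha, u, hu⟩ := hr
    obtain ⟨c, hc, hcu⟩ := Polynomial.isUnit_iff.1 (u⁻¹).isUnit
    have hre : r = C c * X ^ a := by
      rw [hcu, ← hu]
      rw [mul_comm, mul_assoc, Units.mul_inv, mul_one]
    have hc0 : c ≠ 0 := hc.ne_zero
    have hse : s = C (c⁻¹ * κ) * X ^ (2 * p - a) := by
      have h3 : (C c * X ^ a) * s = (C c * X ^ a) * (C (c⁻¹ * κ) * X ^ (2 * p - a)) := by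
        rw [← hre, h0, hre]
        have e2 : (C c * X ^ a : K[X]) * (C (c⁻¹ * κ) * X ^ (2 * p - a)) =
            C (c * (c⁻¹ * κ)) * X ^ (a + (2 * p - a)) := by
          rw [C_mul (a := c) (b := c⁻¹ * κ), pow_add]; ring
        rw [e2, mul_inv_cancel_left₀ hc0, Nat.add_sub_cancel' ha]
      exact mul_left_cancel₀ (mul_ne_zero (by simpa using hc0) (pow_ne_zero _ X_ne_zero)) h3
    have hd0 : c⁻¹ * κ ≠ 0 := mul_ne_zero (inv_ne_zero hc0) hκ
    rw [hre, hse] at h1
    rcases lt_trichotomy a (2 * p - a) with h | h | h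
    · have := congrArg (fun q => q.coeff a) h1
      simp only [coeff_add, coeff_C_mul_X_pow, coeff_X_pow] at this
      rw [if_pos trivial, if_neg h.ne, if_neg (by omega), add_zero] at this
      exact hc0 this
    · have := congrArg (fun q => q.coeff (p + j)) h1
      simp only [coeff_add, coeff_C_mul_X_pow, coeff_X_pow] at this
      rw [if_neg (by omega), if_neg (by omega), if_pos trivial, add_zero] at this
      exact zero_ne_one this
    · have := congrArg (fun q => q.coeff (2 * p - a)) h1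
      simp only [coeff_add, coeff_C_mul_X_pow, coeff_X_pow] at this
      rw [if_neg h.ne, if_pos trivial, if_neg (by omega), zero_add] at this
      exact hd0 this

/-- Family 4 is irreducible. -/
theorem irreducible_fam4 {K : Type*} [Field K] {p j : ℕ} (hp : p.Prime) [CharP K p]
    (hpj : ¬ p ∣ j) {κ : K} (hκ : κ ≠ 0) :
    Irreducible (X ^ (2 * p) + C (X ^ (p + j)) * X ^ p +
      C (C (κ ^ p) * X ^ (2 * p)) : K[X][X]) := by
  have : Fact p.Prime := ⟨hp⟩
  have hj : 0 < j := by
    rcases Nat.eq_zero_or_pos j with rfl | h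
    · exact absurd (dvd_zero p) hpj
    · exact h
  set f : K[X][X] := X ^ (2 * p) + C (X ^ (p + j)) * X ^ p +
      C (C (κ ^ p) * X ^ (2 * p)) with hf
  set E : K[X][X] := X ^ 2 + C (X ^ (p + j)) * X + C (C κ * X ^ (2 * p)) with hE
  have hEirr : Irreducible E := irreducible_quad hj hκ
  obtain ⟨hEdeg, hEmon, hEnext, -, -⟩ := quad_facts (X ^ (p + j) : K[X]) (C κ * X ^ (2 * p))
  rw [← hE] at hEdeg hEmon hEnext
  let ψ : K[X] →+* K[X] := (expand K p : K[X] →ₐ[K] K[X]).toRingHom
  have hψ : ∀ q, ψ q = expand K p q := fun q => rfl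
  have hψinj : Function.Injective ψ := expand_injective hp.pos
  have hfE : f.map ψ = E ^ p := by
    have e1 : E ^ p = (X ^ 2) ^ p + (C (X ^ (p + j)) * X) ^ p + (C (C κ * X ^ (2 * p))) ^ p := by
      rw [hE, add_pow_char (p := p) (X ^ 2 + C (X ^ (p + j)) * X : K[X][X]) _,
        add_pow_char (p := p) (X ^ 2 : K[X][X]) _]
    rw [e1, hf]
    simp only [Polynomial.map_add, Polynomial.map_mul, Polynomial.map_pow, map_X, map_C, hψ,
      map_mul, map_pow, expand_C, expand_X]
    ring
  have hfdeg : f.natDegree = 2 * p := by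
    rw [← natDegree_map_eq_of_injective hψinj f, hfE, natDegree_pow, hEdeg]; ring
  have hfmon : f.Monic := by
    apply monic_of_injective hψinj
    rw [hfE]; exact hEmon.pow p
  rw [hfmon.irreducible_iff_natDegree]
  refine ⟨?_, ?_⟩
  · intro h
    rw [h, natDegree_one] at hfdeg
    have := hp.pos
    omega
  · intro g h hg hh hgh
    have hsum : g.natDegree + h.natDegree = 2 * p := by
      rw [← hg.natDegree_mul hh, hgh, hfdeg]
    have hdvd : g.map ψ ∣ E ^ p := by
      rw [← hfE, ← hgh, Polynomial.map_mul]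
      exact dvd_mul_right _ _
    rw [dvd_prime_pow hEirr.prime] at hdvd
    obtain ⟨i, hi, hass⟩ := hdvd
    have heq : g.map ψ = E ^ i := eq_of_monic_of_associated (hg.map ψ) (hEmon.pow i) hass
    have hgdeg : g.natDegree = 2 * i := by
      rw [← natDegree_map_eq_of_injective hψinj g, heq, natDegree_pow, hEdeg]; ring
    have hnext := hEmon.nextCoeff_pow i
    rw [← heq, nextCoeff_map hψinj, hEnext, hψ] at hnext
    have hco := congrArg (fun q => q.coeff (p + j)) hnext
    simp only [coeff_expand hp.pos] at hco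
    rw [if_neg (by rwa [Nat.dvd_add_right (dvd_refl p)]), coeff_smul, coeff_X_pow,
      if_pos rfl, nsmul_eq_mul, mul_one] at hco
    have hpi : p ∣ i := (CharP.cast_eq_zero_iff K p i).1 hco.symm
    obtain ⟨t, rfl⟩ := hpi
    have ht : t ≤ 1 := by
      by_contra hcon
      have : p * 2 ≤ p * t := Nat.mul_le_mul_left _ (by omega)
      have := hp.pos
      omega
    interval_cases t
    · left; omega
    · right; omega

end Pool.Agent.Y214.LinSub
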