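import Mathlib

set_option autoImplicit false

namespace Pool.Agent.Y214.LinSub

open Polynomial

theorem val_finRotate (n : ℕ) (hn : 0 < n) (i : Fin n) :
    ((finRotate n i : Fin n) : ℕ) = ((i : ℕ) + 1) % n := by
  obtain ⟨m, rfl⟩ : ∃ m, n = m + 1 := ⟨n - 1, by omega⟩
  rw [finRotate_apply, Fin.val_add, Fin.val_one', Nat.add_mod_mod]

/-- Stickelberger: the discriminant of a power basis of a degree `n` extension of a finite field
of odd characteristic is a square exactly when `n` is odd. -/
theorem quadraticChar_discr {K L : Type*} [Field K] [Fintype K] [DecidableEq K] [Field L]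
    [Finite L] [Algebra K L] (hK : ringChar K ≠ 2) (pb : PowerBasis K L) :
    quadraticChar K (Algebra.discr K pb.basis) = (-1) ^ (Module.finrank K L - 1) := by
  classical
  have hfin : Module.Finite K L := pb.finite
  have hdim : Module.finrank K L = pb.dim := pb.finrank
  have hdpos : 0 < pb.dim := hdim ▸ Module.finrank_pos
  let φ : L ≃ₐ[K] L := FiniteField.frobeniusAlgEquivOfAlgebraic K L
  let e : Fin pb.dim ≃ (L ≃ₐ[K] L) := (finCongr hdim.symm).trans
    (Equiv.ofBijective _ (FiniteField.bijective_frobeniusAlgEquivOfAlgebraic_pow K L))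
  have he : ∀ i, e i = φ ^ (i : ℕ) := fun i => rfl
  have hφn : φ ^ pb.dim = 1 := by
    rw [← hdim, ← FiniteField.orderOf_frobeniusAlgEquivOfAlgebraic K L]; exact pow_orderOf_eq_one _
  set δ : L := (Matrix.vandermonde fun i => e i pb.gen).det with hδ
  have hD : algebraMap K L (Algebra.discr K pb.basis) = δ ^ 2 := by
    have h1 : (algebraMap K L).mapMatrix (Algebra.traceMatrix K pb.basis) =
        (Matrix.vandermonde fun i => e i pb.gen).transpose *
          (Matrix.vandermonde fun i => e i pb.gen) := by
      ext j k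
      rw [RingHom.mapMatrix_apply, Matrix.map_apply, Algebra.traceMatrix_apply,
        Algebra.traceForm_apply, trace_eq_sum_automorphisms, Matrix.mul_apply,
        ← Equiv.sum_comp e]
      refine Finset.sum_congr rfl fun i _ => ?_
      rw [Matrix.transpose_apply, Matrix.vandermonde_apply, Matrix.vandermonde_apply, map_mul,
        pb.basis_eq_pow, pb.basis_eq_pow, map_pow, map_pow]
    rw [Algebra.discr_def, RingHom.map_det, h1, Matrix.det_mul, Matrix.det_transpose, pow_two]
  have hD0 : Algebra.discr K pb.basis ≠ 0 := Algebra.discr_not_zero_of_basis K _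
  have hδ0 : δ ≠ 0 := by
    intro h
    rw [h] at hD
    exact hD0 (by simpa using hD)
  have hrot : ∀ i : Fin pb.dim, φ (e i pb.gen) = e (finRotate _ i) pb.gen := by
    intro i
    have h1 : φ (e i pb.gen) = (φ ^ ((i : ℕ) + 1)) pb.gen := by
      rw [he, pow_succ', AlgEquiv.mul_apply]
    rw [h1, he, val_finRotate _ hdpos]
    conv_lhs => rw [← Nat.div_add_mod ((i : ℕ) + 1) pb.dim, pow_add, pow_mul, hφn, one_pow, one_mul]
  have hφδ : φ δ = (-1) ^ (pb.dim - 1) * δ := by
    have h1 : φ δ = (Matrix.vandermonde fun i => φ (e i pb.gen)).det := by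
      rw [hδ, AlgEquiv.map_det]
      congr 1
      ext i j
      simp [Matrix.vandermonde_apply]
    have h2 : (Matrix.vandermonde fun i => φ (e i pb.gen)) =
        (Matrix.vandermonde fun i => e i pb.gen).submatrix (finRotate _) id := by
      ext i j
      simp [Matrix.vandermonde_apply, hrot]
    rw [h1, h2, Matrix.det_permute, sign_finRotate, ← hδ]
    simp
  have hL2 : (2 : L) ≠ 0 := by
    have : (2 : K) ≠ 0 := Ring.two_ne_zero hK
    intro h
    apply this
    apply (algebraMap K L).injective
    rw [map_ofNat, h, map_zero]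
  rw [hdim]
  have hfixed : φ δ = δ → ∃ s : K, algebraMap K L s = δ := by
    intro h
    have h2 : ∀ f : L ≃ₐ[K] L, f δ = δ := by
      intro f
      obtain ⟨n, hn⟩ := (FiniteField.bijective_frobeniusAlgEquivOfAlgebraic_pow K L).2 f
      have h3 : ∀ n : ℕ, ((FiniteField.frobeniusAlgEquivOfAlgebraic K L) ^ n) δ = δ := by
        intro n
        induction n with
        | zero => rfl
        | succ n ih =>
          rw [pow_succ, AlgEquiv.mul_apply]
          have h4 : (FiniteField.frobeniusAlgEquivOfAlgebraic K L) δ = δ := h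
          rw [h4, ih]
      rw [← hn]
      exact h3 _
    exact (IsGalois.mem_range_algebraMap_iff_fixed δ).2 h2
  rcases Nat.even_or_odd (pb.dim - 1) with hev | hodd
  · rw [hev.neg_one_pow] at hφδ ⊢
    rw [one_mul] at hφδ
    obtain ⟨s, hs⟩ := hfixed hφδ
    rw [← hs, ← map_pow] at hD
    have := (algebraMap K L).injective hD
    rw [this]
    apply quadraticChar_sq_one'
    rintro rfl
    apply hδ0
    rw [← hs, map_zero]
  · rw [hodd.neg_one_pow] at hφδ ⊢
    rw [quadraticChar_neg_one_iff_not_isSquare]
    rintro ⟨s, hs⟩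
    rw [hs, map_mul, ← pow_two] at hD
    have h1 : δ = algebraMap K L s ∨ δ = - algebraMap K L s := by
      rw [← sq_eq_sq_iff_eq_or_eq_neg, hD]
    have h2 : φ δ = δ := by
      rcases h1 with h1 | h1 <;> rw [h1]
      · exact φ.commutes s
      · rw [map_neg]; congr 1; exact φ.commutes s
    rw [h2] at hφδ
    have : 2 * δ = 0 := by linear_combination hφδ
    rcases mul_eq_zero.1 this with h | h
    · exact hL2 h
    · exact hδ0 h

/-- The norm of `θ - ρ`, for `θ` the root of an irreducible polynomial `g`. -/
theorem norm_root_sub {K : Type*} [Field K] {g : K[X]} (hg : Irreducible g) (ρ : K) :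
    Algebra.norm K (AdjoinRoot.root g - algebraMap K (AdjoinRoot g) ρ) * g.leadingCoeff =
      (-1) ^ g.natDegree * g.eval ρ := by
  have : Fact (Irreducible g) := ⟨hg⟩
  have hg0 : g ≠ 0 := hg.ne_zero
  have hfin : Module.Finite K (AdjoinRoot g) := (AdjoinRoot.powerBasis hg0).finite
  have hc : g.leadingCoeff ≠ 0 := leadingCoeff_ne_zero.2 hg0
  have hfr : Module.finrank K (AdjoinRoot g) = g.natDegree := by
    rw [(AdjoinRoot.powerBasis hg0).finrank, AdjoinRoot.powerBasis_dim]
  have h1 : Algebra.norm K (algebraMap K (AdjoinRoot g) ρ - AdjoinRoot.root g) =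
      (minpoly K (AdjoinRoot.root g)).eval ρ := by
    have h2 := charpoly_leftMulMatrix (AdjoinRoot.powerBasis hg0)
    rw [AdjoinRoot.powerBasis_gen] at h2
    rw [← h2, Matrix.eval_charpoly, Algebra.norm_eq_matrix_det (AdjoinRoot.powerBasis hg0).basis,
      map_sub]
    congr 2
    rw [AlgHom.commutes]
    rfl
  have h3 : AdjoinRoot.root g - algebraMap K (AdjoinRoot g) ρ =
      algebraMap K _ (-1) * (algebraMap K (AdjoinRoot g) ρ - AdjoinRoot.root g) := by
    rw [map_neg, map_one]; ring
  rw [h3, map_mul, Algebra.norm_algebraMap, hfr, h1, AdjoinRoot.minpoly_root hg0, eval_mul, eval_C,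
    mul_assoc, mul_assoc, inv_mul_cancel₀ hc, mul_one]

theorem quadraticChar_inv_eq {K : Type*} [Field K] [Fintype K] [DecidableEq K] (a : K) :
    quadraticChar K a⁻¹ = quadraticChar K a := by
  by_cases ha : a = 0
  · simp [ha]
  · have h : a⁻¹ = a * (a⁻¹) ^ 2 := by field_simp
    rw [h, map_mul, quadraticChar_sq_one' (inv_ne_zero ha), mul_one]

/-- Stickelberger's parity theorem for one irreducible polynomial over a finite field of odd
characteristic. -/
theorem parity {K : Type*} [Field K] [Fintype K] [DecidableEq K] (hK : ringChar K ≠ 2)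
    {g : K[X]} (hg : Irreducible g) :
    quadraticChar K (-1) ^ (g.natDegree * (g.natDegree - 1) / 2) *
      (quadraticChar K g.leadingCoeff ^ g.natDegree *
        quadraticChar K (Algebra.norm K (aeval (AdjoinRoot.root g) (derivative g)))) =
      (-1) ^ (g.natDegree - 1) := by
  have : Fact (Irreducible g) := ⟨hg⟩
  have hg0 : g ≠ 0 := hg.ne_zero
  have hfin : Module.Finite K (AdjoinRoot g) := (AdjoinRoot.powerBasis hg0).finite
  have hfL : Finite (AdjoinRoot g) := Module.finite_of_finite K
  have hfr : Module.finrank K (AdjoinRoot g) = g.natDegree := by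
    rw [(AdjoinRoot.powerBasis hg0).finrank, AdjoinRoot.powerBasis_dim]
  have h1 := quadraticChar_discr hK (AdjoinRoot.powerBasis hg0)
  rw [Algebra.discr_powerBasis_eq_norm, hfr, AdjoinRoot.powerBasis_gen,
    AdjoinRoot.minpoly_root hg0] at h1
  have h2 : derivative (g * C g.leadingCoeff⁻¹) = derivative g * C g.leadingCoeff⁻¹ := by
    rw [derivative_mul, derivative_C, mul_zero, add_zero]
  have h3 : Algebra.norm K (aeval (AdjoinRoot.root g) (derivative g * C g.leadingCoeff⁻¹)) =
      Algebra.norm K (aeval (AdjoinRoot.root g) (derivative g)) *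
        g.leadingCoeff⁻¹ ^ g.natDegree := by
    rw [map_mul (aeval (AdjoinRoot.root g)), aeval_C, map_mul, Algebra.norm_algebraMap, hfr]
  rw [h2, h3, map_mul, map_pow, map_mul, map_pow, quadraticChar_inv_eq] at h1
  rw [← h1]
  ring

/-- The character value of the norm of `θ - ρ`. -/
theorem char_norm_root_sub {K : Type*} [Field K] [Fintype K] [DecidableEq K] {g : K[X]}
    (hg : Irreducible g) (ρ : K) :
    quadraticChar K (Algebra.norm K (AdjoinRoot.root g - algebraMap K (AdjoinRoot g) ρ)) =
      quadraticChar K g.leadingCoeff * (quadraticChar K (-1) ^ g.natDegree *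
        quadraticChar K (g.eval ρ)) := by
  have h := congrArg (quadraticChar K) (norm_root_sub hg ρ)
  rw [map_mul, map_mul, map_pow] at h
  have hc : g.leadingCoeff ≠ 0 := leadingCoeff_ne_zero.2 hg.ne_zero
  have h2 := quadraticChar_sq_one hc
  rw [← h]
  linear_combination (- quadraticChar K
    (Algebra.norm K (AdjoinRoot.root g - algebraMap K (AdjoinRoot g) ρ))) * h2

end Pool.Agent.Y214.LinSub
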