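import Mathlib
import Pool.Agent.Y214.LinSub.Parity

set_option autoImplicit false

namespace Pool.Agent.Y214.LinSub

open Polynomial

section aux

variable {K : Type*} [Field K] [Fintype K] [DecidableEq K]

theorem char_pow_even {x : K} (hx : x ≠ 0) {k : ℕ} (hk : Even k) : quadraticChar K x ^ k = 1 := by
  obtain ⟨m, rfl⟩ := hk
  rw [← two_mul, pow_mul, quadraticChar_sq_one hx, one_pow]

theorem char_pow_odd {x : K} (hx : x ≠ 0) {k : ℕ} (hk : Odd k) :
    quadraticChar K x ^ k = quadraticChar K x := by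
  obtain ⟨m, rfl⟩ := hk
  rw [pow_succ, char_pow_even hx (even_two_mul m), one_mul]

theorem exists_char (hK : ringChar K ≠ 2) {s : ℤ} (hs : s = 1 ∨ s = -1) :
    ∃ κ : K, κ ≠ 0 ∧ quadraticChar K κ = s := by
  rcases hs with rfl | rfl
  · exact ⟨1, one_ne_zero, MulChar.map_one _⟩
  · obtain ⟨κ, hκ⟩ := quadraticChar_exists_neg_one (F := K) hK
    refine ⟨κ, ?_, hκ⟩
    rintro rfl
    simp at hκ

omit [Fintype K] [DecidableEq K] in
theorem lead_aux {κ : K} (hκ : κ ≠ 0) {n : ℕ} {r : K[X]} (hr : r.natDegree < n) :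
    (C κ * X ^ n + r).natDegree = n ∧ (C κ * X ^ n + r).leadingCoeff = κ := by
  have h1 : (C κ * X ^ n : K[X]).natDegree = n := natDegree_C_mul_X_pow _ _ hκ
  have h2 : (C κ * X ^ n + r).natDegree = n := by
    rw [natDegree_add_eq_left_of_natDegree_lt (by rw [h1]; exact hr), h1]
  refine ⟨h2, ?_⟩
  rw [leadingCoeff, h2, coeff_add, coeff_C_mul_X_pow, if_pos rfl,
    coeff_eq_zero_of_natDegree_lt hr, add_zero]

/-- The norm of the root itself. -/
theorem char_norm_root {g : K[X]} (hg : Irreducible g) :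
    quadraticChar K (Algebra.norm K (AdjoinRoot.root g)) =
      quadraticChar K g.leadingCoeff * (quadraticChar K (-1) ^ g.natDegree *
        quadraticChar K (g.eval 0)) := by
  have := char_norm_root_sub hg 0
  rwa [map_zero, sub_zero] at this

theorem char_norm_algebraMap {g : K[X]} (hg : Irreducible g) (a : K) :
    quadraticChar K (Algebra.norm K (algebraMap K (AdjoinRoot g) a)) =
      quadraticChar K a ^ g.natDegree := by
  have : Fact (Irreducible g) := ⟨hg⟩
  have hg0 : g ≠ 0 := hg.ne_zero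
  have hfr : Module.finrank K (AdjoinRoot g) = g.natDegree := by
    rw [(AdjoinRoot.powerBasis hg0).finrank, AdjoinRoot.powerBasis_dim]
  rw [Algebra.norm_algebraMap, hfr, map_pow]

theorem char_norm_monomial {g : K[X]} (hg : Irreducible g) (a : K) (k : ℕ) :
    quadraticChar K (Algebra.norm K (aeval (AdjoinRoot.root g) (C a * X ^ k))) =
      quadraticChar K a ^ g.natDegree * (quadraticChar K g.leadingCoeff *
        (quadraticChar K (-1) ^ g.natDegree * quadraticChar K (g.eval 0))) ^ k := by
  have h : aeval (AdjoinRoot.root g) (C a * X ^ k) =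
      algebraMap K (AdjoinRoot g) a * AdjoinRoot.root g ^ k := by
    rw [map_mul, aeval_C, map_pow, aeval_X]
  rw [h, map_mul, map_mul, map_pow, map_pow, char_norm_algebraMap hg, char_norm_root hg]

end aux

section fam

variable {K : Type*} [Field K] [Fintype K] [DecidableEq K] (p : ℕ) [Fact p.Prime] [CharP K p]

omit [Fintype K] [DecidableEq K] [Fact p.Prime] in
include p in
theorem ringChar_ne_two (hp2 : p ≠ 2) : ringChar K ≠ 2 := by
  rw [ringChar.eq K p]; exact hp2

/-- Family 1. -/
theorem fam1 (hp2 : p ≠ 2) {n : ℕ} (hpn : p ∣ n) (hn : p < n) {κ : K} (hκ : κ ≠ 0) (u v : K)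
    (hg : Irreducible (C κ * X ^ n + (C u * X ^ p + X + C v) : K[X])) :
    quadraticChar K (-1) ^ (n * (n - 1) / 2) * quadraticChar K κ ^ n = (-1) ^ (n - 1) := by
  have hp : p.Prime := Fact.out
  set g : K[X] := C κ * X ^ n + (C u * X ^ p + X + C v) with hgdef
  have hr : (C u * X ^ p + X + C v : K[X]).natDegree < n := by
    refine lt_of_le_of_lt ?_ hn
    refine (natDegree_add_le _ _).trans (max_le ?_ (by simp))
    refine (natDegree_add_le _ _).trans (max_le (natDegree_C_mul_X_pow_le _ _) ?_)
    exact natDegree_X_le.trans hp.one_lt.le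
  obtain ⟨h1, h2⟩ := lead_aux hκ hr
  have h3 : derivative g = 1 := by
    have e1 : (n : K) = 0 := (CharP.cast_eq_zero_iff K p n).2 hpn
    rw [hgdef]
    rw [derivative_add, derivative_C_mul_X_pow, derivative_add, derivative_add,
      derivative_C_mul_X_pow, derivative_C, derivative_X]
    simp [e1]
  have h4 := parity (ringChar_ne_two p hp2) hg
  rw [h3, h1, h2, map_one, map_one, map_one, mul_one] at h4
  exact h4

/-- Family 2. -/
theorem fam2 (hp2 : p ≠ 2) {m : ℕ} (hpm : ¬ p ∣ m) (hm : p < m) (u v : K) :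
    ¬ Irreducible (C ((-1) ^ m) * X ^ (2 * m) + (C u * X ^ (2 * p) + C v * X ^ p + 1) : K[X]) := by
  intro hg
  have hp : p.Prime := Fact.out
  have hm0 : 0 < m := by omega
  set g : K[X] := C ((-1) ^ m) * X ^ (2 * m) + (C u * X ^ (2 * p) + C v * X ^ p + 1) with hgdef
  have hε : ((-1) ^ m : K) ≠ 0 := pow_ne_zero _ (neg_ne_zero.2 one_ne_zero)
  have hr : (C u * X ^ (2 * p) + C v * X ^ p + 1 : K[X]).natDegree < 2 * m := by
    refine lt_of_le_of_lt ?_ (show 2 * p < 2 * m by omega)
    refine (natDegree_add_le _ _).trans (max_le ?_ (by simp))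
    refine (natDegree_add_le _ _).trans (max_le (natDegree_C_mul_X_pow_le _ _) ?_)
    exact (natDegree_C_mul_X_pow_le _ _).trans (by omega)
  obtain ⟨h1, h2⟩ := lead_aux hε hr
  have hK2 : ringChar K ≠ 2 := ringChar_ne_two p hp2
  have h20 : (2 : K) ≠ 0 := Ring.two_ne_zero hK2
  have hn0 : ((2 * m : ℕ) : K) ≠ 0 := by
    rw [Nat.cast_mul]
    refine mul_ne_zero (by exact_mod_cast h20) ?_
    rwa [Ne, CharP.cast_eq_zero_iff K p m]
  have h3 : derivative g = C ((-1) ^ m * ((2 * m : ℕ) : K)) * X ^ (2 * m - 1) := by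
    rw [hgdef]
    rw [derivative_add, derivative_C_mul_X_pow, derivative_add, derivative_add,
      derivative_C_mul_X_pow, derivative_C_mul_X_pow, derivative_one]
    simp
  have h4 := parity hK2 hg
  have h5 : g.eval 0 = 1 := by
    rw [hgdef]; simp [hm0.ne', hp.ne_zero]
  rw [h3, char_norm_monomial hg, h1, h2, h5, MulChar.map_one, mul_one] at h4
  have hev : Even (2 * m) := even_two_mul m
  have hodd : Odd (2 * m - 1) := by
    refine ⟨m - 1, by omega⟩
  rw [char_pow_even hε hev, char_pow_even (mul_ne_zero hε hn0) hev, one_mul, one_mul,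
    char_pow_even (neg_ne_zero.2 one_ne_zero) hev, mul_one, char_pow_odd hε hodd, map_pow,
    ← pow_add, hodd.neg_one_pow, show 2 * m * (2 * m - 1) / 2 = m * (2 * m - 1) by
      rw [mul_assoc, Nat.mul_div_cancel_left _ (by norm_num)]] at h4
  have hev2 : Even (m * (2 * m - 1) + m) := by
    obtain ⟨k, hk⟩ := Nat.exists_eq_add_of_le (show 1 ≤ m from hm0)
    rw [show m * (2 * m - 1) + m = 2 * (m * m) by
      rw [hk, show 2 * (1 + k) - 1 = 1 + 2 * k by omega]; ring]
    exact even_two_mul _
  rw [char_pow_even (neg_ne_zero.2 one_ne_zero) hev2] at h4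
  norm_num at h4

/-- Family 3. -/
theorem fam3 (hp2 : p ≠ 2) {m : ℕ} (hpm : p ∣ m) (hm : p < m) (u v : K) :
    ¬ Irreducible (C ((-1) ^ m) * X ^ (2 * m) +
      (C u * X ^ (2 * p) + C v * X ^ p + X ^ 2 + 1) : K[X]) := by
  intro hg
  have hp : p.Prime := Fact.out
  have hm0 : 0 < m := by omega
  set g : K[X] := C ((-1) ^ m) * X ^ (2 * m) + (C u * X ^ (2 * p) + C v * X ^ p + X ^ 2 + 1)
    with hgdef
  have hε : ((-1) ^ m : K) ≠ 0 := pow_ne_zero _ (neg_ne_zero.2 one_ne_zero)
  have hr : (C u * X ^ (2 * p) + C v * X ^ p + X ^ 2 + 1 : K[X]).natDegree < 2 * m := by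
    refine lt_of_le_of_lt ?_ (show 2 * p < 2 * m by omega)
    refine (natDegree_add_le _ _).trans (max_le ?_ (by simp))
    refine (natDegree_add_le _ _).trans (max_le ?_ ?_)
    · refine (natDegree_add_le _ _).trans (max_le (natDegree_C_mul_X_pow_le _ _) ?_)
      exact (natDegree_C_mul_X_pow_le _ _).trans (by omega)
    · rw [natDegree_X_pow]; have := hp.two_le; omega
  obtain ⟨h1, h2⟩ := lead_aux hε hr
  have hK2 : ringChar K ≠ 2 := ringChar_ne_two p hp2
  have h20 : (2 : K) ≠ 0 := Ring.two_ne_zero hK2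
  have e1 : (m : K) = 0 := (CharP.cast_eq_zero_iff K p m).2 hpm
  have h3 : derivative g = C 2 * X ^ 1 := by
    rw [hgdef]
    rw [derivative_add, derivative_C_mul_X_pow, derivative_add, derivative_add, derivative_add,
      derivative_C_mul_X_pow, derivative_C_mul_X_pow, derivative_one, derivative_X_pow]
    simp [e1]
  have h4 := parity hK2 hg
  have h5 : g.eval 0 = 1 := by
    rw [hgdef]; simp [hm0.ne', hp.ne_zero]
  rw [h3, char_norm_monomial hg, h1, h2, h5, MulChar.map_one, mul_one, pow_one] at h4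
  have hev : Even (2 * m) := even_two_mul m
  have hodd : Odd (2 * m - 1) := by
    refine ⟨m - 1, by omega⟩
  rw [char_pow_even hε hev, char_pow_even h20 hev, one_mul, one_mul,
    char_pow_even (neg_ne_zero.2 one_ne_zero) hev, mul_one, map_pow,
    ← pow_add, hodd.neg_one_pow, show 2 * m * (2 * m - 1) / 2 = m * (2 * m - 1) by
      rw [mul_assoc, Nat.mul_div_cancel_left _ (by norm_num)]] at h4
  have hev2 : Even (m * (2 * m - 1) + m) := by
    obtain ⟨k, hk⟩ := Nat.exists_eq_add_of_le (show 1 ≤ m from hm0)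
    rw [show m * (2 * m - 1) + m = 2 * (m * m) by
      rw [hk, show 2 * (1 + k) - 1 = 1 + 2 * k by omega]; ring]
    exact even_two_mul _
  rw [char_pow_even (neg_ne_zero.2 one_ne_zero) hev2] at h4
  norm_num at h4

/-- Family 4. -/
theorem fam4 (hp2 : p ≠ 2) {j : ℕ} (hj : Odd j) (hpj : ¬ p ∣ j) {κ : K} (hκ : κ ≠ 0)
    (hχ : quadraticChar K κ = - (quadraticChar K (-1) ^ ((2 * p + j) * (2 * p + j - 1) / 2) *
      quadraticChar K (j : K))) (a b : K) :
    ¬ Irreducible (X ^ (2 * p) + X ^ p * (C a * X + C b) ^ (p + j) +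
      C κ * (C a * X + C b) ^ (2 * p) : K[X]) := by
  intro hg
  have hp : p.Prime := Fact.out
  have hpodd : Odd p := hp.odd_of_ne_two hp2
  have hj0 : 0 < j := hj.pos
  have hK2 : ringChar K ≠ 2 := ringChar_ne_two p hp2
  have hjK : (j : K) ≠ 0 := by rwa [Ne, CharP.cast_eq_zero_iff K p j]
  have h2p : ((2 * p : ℕ) : K) = 0 := by
    rw [CharP.cast_eq_zero_iff K p]; exact dvd_mul_left _ _
  have hpK : (p : K) = 0 := CharP.cast_eq_zero K p
  set g : K[X] := X ^ (2 * p) + X ^ p * (C a * X + C b) ^ (p + j) +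
      C κ * (C a * X + C b) ^ (2 * p) with hgdef
  by_cases ha : a = 0
  · -- a `p`-th power
    have hsurj : Function.Surjective (frobenius K p) :=
      Finite.surjective_of_injective (frobenius_inj _ p)
    obtain ⟨c1, hc1⟩ := hsurj (b ^ (p + j))
    obtain ⟨c2, hc2⟩ := hsurj κ
    have hc1' : c1 ^ p = b ^ (p + j) := hc1
    have hc2' : c2 ^ p = κ := hc2
    have h1 : g = (X ^ 2 + C c1 * X + C c2 * C b ^ 2) ^ p := by
      have e2 : (X ^ 2 + C c1 * X + C c2 * C b ^ 2 : K[X]) ^ p =
          (X ^ 2) ^ p + (C c1 * X) ^ p + (C c2 * C b ^ 2) ^ p := by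
        rw [add_pow_char (p := p) (X ^ 2 + C c1 * X : K[X]) (C c2 * C b ^ 2),
          add_pow_char (p := p) (X ^ 2 : K[X]) (C c1 * X)]
      rw [e2, hgdef, ha, mul_pow, mul_pow, ← C_pow, ← C_pow, hc1', hc2']
      simp only [C_0, zero_mul, zero_add, C_pow]
      ring
    rw [h1] at hg
    exact not_irreducible_pow hp.one_lt.ne' hg
  by_cases hb : b = 0
  · -- divisible by the square of the variable
    have h1 : g = X * (X ^ (2 * p - 1) + X ^ (p - 1) * (C a * X) ^ (p + j) +
        C (κ * a ^ (2 * p)) * X ^ (2 * p - 1)) := by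
      obtain ⟨q, hq⟩ : ∃ q, p = q + 1 := ⟨p - 1, by have := hp.pos; omega⟩
      rw [hgdef, hb, C_0, add_zero, C_mul, C_pow, show 2 * p - 1 = 2 * q + 1 by omega,
        show p - 1 = q by omega, mul_pow, mul_pow, hq]
      ring
    rcases hg.isUnit_or_isUnit h1 with h2 | h2
    · exact not_isUnit_X h2
    · have h3 := h2.map (evalRingHom (0 : K))
      have hp1 : p - 1 ≠ 0 := by have := hp.two_le; omega
      have hp3 : 2 * p - 1 ≠ 0 := by have := hp.two_le; omega
      simp [hp1, hp3] at h3
  · -- the main case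
    have hac : a ^ (p + j) ≠ 0 := pow_ne_zero _ ha
    have hl : g.natDegree = 2 * p + j ∧ g.leadingCoeff = a ^ (p + j) := by
      have hA1 : ((C a * X + C b : K[X]) ^ (p + j)).natDegree = p + j := by
        rw [natDegree_pow, natDegree_linear ha, mul_one]
      have hA2 : ((C a * X + C b : K[X]) ^ (p + j)).leadingCoeff = a ^ (p + j) := by
        rw [leadingCoeff_pow, leadingCoeff_linear ha]
      have hA0 : ((C a * X + C b : K[X]) ^ (p + j)) ≠ 0 := by
        intro h
        rw [h, leadingCoeff_zero] at hA2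
        exact hac hA2.symm
      have hB1 : (X ^ p * (C a * X + C b) ^ (p + j) : K[X]).natDegree = 2 * p + j := by
        rw [natDegree_mul (pow_ne_zero _ X_ne_zero) hA0, natDegree_X_pow, hA1]; ring
      have hB2 : (X ^ p * (C a * X + C b) ^ (p + j) : K[X]).leadingCoeff = a ^ (p + j) := by
        rw [leadingCoeff_mul, hA2, leadingCoeff_X_pow, one_mul]
      have hC1 : (C κ * (C a * X + C b) ^ (2 * p) : K[X]).natDegree < 2 * p + j := by
        refine lt_of_le_of_lt (natDegree_C_mul_le _ _) ?_
        rw [natDegree_pow, natDegree_linear ha, mul_one]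
        omega
      have hC0 : (X ^ (2 * p) + C κ * (C a * X + C b) ^ (2 * p) : K[X]).natDegree < 2 * p + j := by
        refine lt_of_le_of_lt (natDegree_add_le _ _) (max_lt ?_ hC1)
        rw [natDegree_X_pow]; omega
      have hgg : g = X ^ p * (C a * X + C b) ^ (p + j) +
          (X ^ (2 * p) + C κ * (C a * X + C b) ^ (2 * p)) := by
        rw [hgdef]; ring
      constructor
      · rw [hgg, natDegree_add_eq_left_of_natDegree_lt (by rw [hB1]; exact hC0), hB1]
      · rw [hgg, leadingCoeff_add_of_degree_lt', hB2]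
        exact degree_lt_degree (by rw [hB1]; exact hC0)
    obtain ⟨h1, h2⟩ := hl
    have h3 : derivative g = C (j * a) * X ^ p * (C a * X + C b) ^ (p + j - 1) := by
      rw [hgdef]
      rw [derivative_add, derivative_add, derivative_X_pow, derivative_mul, derivative_X_pow,
        derivative_pow, derivative_C_mul, derivative_pow, h2p, hpK, Nat.cast_add, hpK]
      simp
      ring
    have h4 := parity hK2 hg
    let ρ : K := - b / a
    have h0 : g.eval 0 = κ * b ^ (2 * p) := by
      rw [hgdef]; simp [hp.ne_zero]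
    have hw : a * ρ + b = 0 := by
      simp only [ρ]; field_simp; ring
    have hρ : g.eval ρ = ρ ^ (2 * p) := by
      rw [hgdef]
      simp only [eval_add, eval_mul, eval_pow, eval_X, eval_C, hw]
      rw [zero_pow (by omega), zero_pow (by have := hp.pos; omega)]
      ring
    have hρ0 : ρ ≠ 0 := div_ne_zero (neg_ne_zero.2 hb) ha
    have h5 : aeval (AdjoinRoot.root g) (derivative g) =
        algebraMap K (AdjoinRoot g) (j * a) * AdjoinRoot.root g ^ p *
          (algebraMap K (AdjoinRoot g) a *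
            (AdjoinRoot.root g - algebraMap K (AdjoinRoot g) ρ)) ^ (p + j - 1) := by
      rw [h3]
      have e1 : algebraMap K (AdjoinRoot g) b = - (algebraMap K (AdjoinRoot g) a *
          algebraMap K (AdjoinRoot g) ρ) := by
        rw [← map_mul, ← map_neg]
        congr 1
        linear_combination hw
      simp only [map_mul, map_pow, map_add, aeval_C, aeval_X]
      rw [e1]
      ring
    have hnodd : Odd (2 * p + j) := (even_two_mul p).add_odd hj
    have hpj2 : Odd (p + j - 1) := by
      obtain ⟨s, hs⟩ := hpodd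
      obtain ⟨t, ht⟩ := hj
      exact ⟨s + t, by omega⟩
    have hpje : Even (p + j) := hpodd.add_odd hj
    have hm1 : (-1 : K) ≠ 0 := neg_ne_zero.2 one_ne_zero
    have h6 : quadraticChar K (Algebra.norm K (aeval (AdjoinRoot.root g) (derivative g))) =
        quadraticChar K (j : K) * quadraticChar K κ := by
      rw [h5]
      simp only [map_mul (Algebra.norm K), map_pow (Algebra.norm K), map_mul (quadraticChar K),
        map_pow (quadraticChar K)]
      rw [char_norm_algebraMap hg, char_norm_root hg, char_norm_algebraMap hg,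
        char_norm_root_sub hg, h1, h2, h0, hρ]
      have hca : quadraticChar K (a ^ (p + j)) = 1 := by
        rw [map_pow, char_pow_even ha hpje]
      have hcb : quadraticChar K (κ * b ^ (2 * p)) = quadraticChar K κ := by
        rw [map_mul, map_pow, char_pow_even hb (even_two_mul p), mul_one]
      have hcρ : quadraticChar K (ρ ^ (2 * p)) = 1 := by
        rw [map_pow, char_pow_even hρ0 (even_two_mul p)]
      rw [hca, hcb, hcρ, char_pow_odd ha hnodd, char_pow_odd hm1 hnodd, one_mul, one_mul, mul_one,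
        map_mul, mul_pow, char_pow_odd ha hnodd, char_pow_odd hjK hnodd,
        ← map_mul (quadraticChar K) (-1) κ, char_pow_odd (mul_ne_zero hm1 hκ) hpodd,
        ← map_mul (quadraticChar K) a (-1), char_pow_odd (mul_ne_zero ha hm1) hpj2, map_mul, map_mul]
      linear_combination (quadraticChar K (j : K) * quadraticChar K κ *
        (quadraticChar K (-1 : K)) ^ 2) * quadraticChar_sq_one ha +
        (quadraticChar K (j : K) * quadraticChar K κ) * quadraticChar_sq_one hm1
    have hev : Even (2 * p + j - 1) := by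
      obtain ⟨t, ht⟩ := hj
      exact ⟨p + t, by omega⟩
    rw [h6, h1, h2, map_pow, char_pow_even ha hpje, one_pow, one_mul, hχ, hev.neg_one_pow] at h4
    have h7 := char_pow_even hm1 (even_two_mul ((2 * p + j) * (2 * p + j - 1) / 2))
    rw [two_mul, pow_add] at h7
    have h8 := quadraticChar_sq_one hjK
    have h9 : (-1 : ℤ) = 1 := by
      linear_combination h4 + h7 * (quadraticChar K (j : K)) ^ 2 + h8
    norm_num at h9

end fam

end Pool.Agent.Y214.LinSub
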