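import Mathlib
import Pool.Agent.Y214.LinSub.Irr
import Pool.Agent.Y214.LinSub.NonIrr

set_option autoImplicit false

namespace Pool.Agent.Y214.LinSub

open Polynomial

section deg

variable {K : Type*} [CommRing K]

theorem mono_eq (i j : ℕ) (c : K) :
    (MvPolynomial.C c * MvPolynomial.X 0 ^ i * MvPolynomial.X 1 ^ j : MvPolynomial (Fin 2) K) =
      MvPolynomial.monomial (Finsupp.single 0 i + Finsupp.single 1 j) c := by
  rw [MvPolynomial.X_pow_eq_monomial, MvPolynomial.X_pow_eq_monomial, MvPolynomial.C_mul_monomial,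
    MvPolynomial.monomial_mul, mul_one, mul_one]

theorem coeff_mono (i j : ℕ) (c : K) (i' j' : ℕ) :
    MvPolynomial.coeff (Finsupp.single 0 i' + Finsupp.single 1 j')
      (MvPolynomial.C c * MvPolynomial.X 0 ^ i * MvPolynomial.X 1 ^ j :
        MvPolynomial (Fin 2) K) = if i = i' ∧ j = j' then c else 0 := by
  rw [mono_eq, MvPolynomial.coeff_monomial]
  congr 1
  apply propext
  constructor
  · intro h
    have h0 := DFunLike.congr_fun h 0
    have h1 := DFunLike.congr_fun h 1
    simp at h0 h1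
    exact ⟨h0, h1⟩
  · rintro ⟨rfl, rfl⟩; rfl

theorem mono_le (i j : ℕ) (c : K) :
    (MvPolynomial.C c * MvPolynomial.X 0 ^ i * MvPolynomial.X 1 ^ j :
      MvPolynomial (Fin 2) K).totalDegree ≤ i + j := by
  rw [mono_eq]
  refine (MvPolynomial.totalDegree_monomial_le _ _).trans ?_
  rw [Finsupp.sum_add_index' (fun _ => rfl) (fun _ _ _ => rfl), Finsupp.sum_single_index rfl,
    Finsupp.sum_single_index rfl]
  rfl

theorem tdeg {f : MvPolynomial (Fin 2) K} {i j : ℕ} (hle : f.totalDegree ≤ i + j)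
    (hc : MvPolynomial.coeff (Finsupp.single 0 i + Finsupp.single 1 j) f ≠ 0) :
    f.totalDegree = i + j := by
  refine le_antisymm hle ?_
  have h := MvPolynomial.le_totalDegree (MvPolynomial.mem_support_iff.2 hc)
  rwa [Finsupp.sum_add_index' (fun _ => rfl) (fun _ _ _ => rfl), Finsupp.sum_single_index rfl,
    Finsupp.sum_single_index rfl] at h

end deg

/-- The isomorphism `K[t][X] ≃ K[X, Y]` with `X ↦ X`, `t ↦ Y`. -/
noncomputable def eqv (K : Type*) [Field K] : K[X][X] ≃ₐ[K] MvPolynomial (Fin 2) K :=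
  (Polynomial.Bivariate.equivMvPolynomial K).trans
    (MvPolynomial.renameEquiv K (Equiv.swap (0 : Fin 2) 1))

theorem eqv_X (K : Type*) [Field K] : eqv K X = MvPolynomial.X 0 := by
  simp [eqv]

theorem eqv_CX (K : Type*) [Field K] : eqv K (C X) = MvPolynomial.X 1 := by
  simp [eqv]

theorem eqv_CC (K : Type*) [Field K] (a : K) : eqv K (C (C a)) = MvPolynomial.C a := by
  simp [eqv]

section irr

variable {K : Type*} [Field K]

theorem irr1 {p n : ℕ} (hp : p.Prime) (hn : 1 < n) {κ : K} (hκ : κ ≠ 0) (hnK : (n : K) = 0) :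
    Irreducible (MvPolynomial.X 0 ^ p + MvPolynomial.C κ * MvPolynomial.X 1 ^ n +
      MvPolynomial.X 1 : MvPolynomial (Fin 2) K) := by
  have hdeg : (C κ * X ^ n + X : K[X]).natDegree = n :=
    (lead_aux hκ (by rw [natDegree_X]; exact hn)).1
  have hsep : (C κ * X ^ n + X : K[X]).Separable := by
    rw [Separable, derivative_add, derivative_C_mul_X_pow, derivative_X, hnK]
    simp only [mul_zero, C_0, zero_mul, zero_add]
    exact isCoprime_one_right
  have h := irreducible_eis (a := (1 : K[X])) (b := C κ * X ^ n + X) isCoprime_one_left hsep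
    (by rw [hdeg]; omega) hp.pos
  rw [← MulEquiv.irreducible_iff (eqv K).toMulEquiv] at h
  convert h using 1
  change _ = eqv K _
  simp only [map_add, map_mul, map_pow, C_1, one_mul, C_add, C_mul, C_pow, eqv_X, eqv_CX, eqv_CC]
  ring

theorem separable_of_mono {q : K[X]} {e : K} {k : ℕ} (he : e ≠ 0)
    (hder : derivative q = C e * X ^ k) (h0 : q.eval 0 ≠ 0) : q.Separable := by
  rw [Separable, hder]
  have h1 : IsCoprime q X := by
    rw [isCoprime_comm, irreducible_X.coprime_iff_not_dvd, X_dvd_iff, coeff_zero_eq_eval_zero]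
    exact h0
  exact (isCoprime_mul_unit_left_right (isUnit_C.2 he.isUnit) q (X ^ k)).2 h1.pow_right

theorem irr0 {p n : ℕ} (hp : p.Prime) (hn : 1 < n) (hnK : (n : K) ≠ 0) :
    Irreducible (MvPolynomial.X 0 ^ p + MvPolynomial.X 1 ^ n +
      1 : MvPolynomial (Fin 2) K) := by
  have hdeg : (X ^ n + 1 : K[X]).natDegree = n := by
    have := (lead_aux (K := K) one_ne_zero (n := n) (r := 1) (by rw [natDegree_one]; omega)).1
    rwa [C_1, one_mul] at this
  have hsep : (X ^ n + 1 : K[X]).Separable := by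
    refine separable_of_mono (e := (n : K)) (k := n - 1) hnK ?_ ?_
    · rw [derivative_add, derivative_X_pow, derivative_one, add_zero]
    · simp [show n ≠ 0 by omega]
  have h := irreducible_eis (a := (1 : K[X])) (b := X ^ n + 1) isCoprime_one_left hsep
    (by rw [hdeg]; omega) hp.pos
  rw [← MulEquiv.irreducible_iff (eqv K).toMulEquiv] at h
  convert h using 1
  change _ = eqv K _
  simp only [map_add, map_mul, map_pow, C_1, one_mul, eqv_X, eqv_CX, eqv_CC,
    map_one]
  ring

theorem coprime_X_pow {q : K[X]} (k : ℕ) (h0 : q.eval 0 ≠ 0) : IsCoprime (X ^ k) q := by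
  have h1 : IsCoprime X q := by
    rw [irreducible_X.coprime_iff_not_dvd, X_dvd_iff, coeff_zero_eq_eval_zero]
    exact h0
  exact h1.pow_left

theorem irr2 {p n : ℕ} (hp : p.Prime) (hn : 1 < n) {κ : K} (hκ : κ ≠ 0) (hnK : (n : K) ≠ 0) :
    Irreducible (MvPolynomial.X 0 ^ p * MvPolynomial.X 1 ^ p +
      MvPolynomial.C κ * MvPolynomial.X 1 ^ n + 1 : MvPolynomial (Fin 2) K) := by
  have hdeg : (C κ * X ^ n + 1 : K[X]).natDegree = n :=
    (lead_aux hκ (by rw [natDegree_one]; omega)).1
  have h0 : (C κ * X ^ n + 1 : K[X]).eval 0 ≠ 0 := by simp [show n ≠ 0 by omega]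
  have hsep : (C κ * X ^ n + 1 : K[X]).Separable := by
    refine separable_of_mono (e := κ * (n : K)) (k := n - 1) (mul_ne_zero hκ hnK) ?_ h0
    rw [derivative_add, derivative_C_mul_X_pow, derivative_one, add_zero]
  have h := irreducible_eis (a := (X ^ p : K[X])) (b := C κ * X ^ n + 1) (coprime_X_pow p h0) hsep
    (by rw [hdeg]; omega) hp.pos
  rw [← MulEquiv.irreducible_iff (eqv K).toMulEquiv] at h
  convert h using 1
  change _ = eqv K _
  simp only [map_add, map_mul, map_pow, C_1, eqv_X, eqv_CX, eqv_CC,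
    map_one]
  ring

theorem irr3 {p n : ℕ} (hp : p.Prime) (hn : 2 < n) {κ : K} (hκ : κ ≠ 0) (hnK : (n : K) = 0)
    (h2 : (2 : K) ≠ 0) :
    Irreducible (MvPolynomial.X 0 ^ p * MvPolynomial.X 1 ^ p +
      MvPolynomial.C κ * MvPolynomial.X 1 ^ n + MvPolynomial.X 1 ^ 2 + 1 :
        MvPolynomial (Fin 2) K) := by
  have hdeg : (C κ * X ^ n + (X ^ 2 + 1) : K[X]).natDegree = n := by
    refine (lead_aux hκ (lt_of_le_of_lt (natDegree_add_le _ _) ?_)).1
    rw [natDegree_X_pow, natDegree_one]
    simpa using hn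
  have h0 : (C κ * X ^ n + (X ^ 2 + 1) : K[X]).eval 0 ≠ 0 := by simp [show n ≠ 0 by omega]
  have hsep : (C κ * X ^ n + (X ^ 2 + 1) : K[X]).Separable := by
    refine separable_of_mono (e := (2 : K)) (k := 1) h2 ?_ h0
    rw [derivative_add, derivative_C_mul_X_pow, hnK, derivative_add, derivative_one,
      derivative_X_pow]
    simp
  have h := irreducible_eis (a := (X ^ p : K[X])) (b := C κ * X ^ n + (X ^ 2 + 1))
    (coprime_X_pow p h0) hsep (by rw [hdeg]; omega) hp.pos
  rw [← MulEquiv.irreducible_iff (eqv K).toMulEquiv] at h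
  convert h using 1
  change _ = eqv K _
  simp only [map_add, map_mul, map_pow, C_1, eqv_X, eqv_CX, eqv_CC,
    map_one]
  ring

theorem irr4 {p j : ℕ} (hp : p.Prime) [CharP K p] (hpj : ¬ p ∣ j) {κ : K} (hκ : κ ≠ 0) :
    Irreducible (MvPolynomial.X 1 ^ (2 * p) + MvPolynomial.X 0 ^ (p + j) * MvPolynomial.X 1 ^ p +
      MvPolynomial.C (κ ^ p) * MvPolynomial.X 0 ^ (2 * p) : MvPolynomial (Fin 2) K) := by
  have h := irreducible_fam4 hp hpj hκ
  rw [← MulEquiv.irreducible_iff (Polynomial.Bivariate.equivMvPolynomial K).toMulEquiv] at h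
  convert h using 1
  change _ = Polynomial.Bivariate.equivMvPolynomial K _
  simp only [map_add, map_mul, map_pow, Polynomial.Bivariate.equivMvPolynomial_X,
    Polynomial.Bivariate.equivMvPolynomial_C_X, Polynomial.Bivariate.equivMvPolynomial_C_C]

end irr

end Pool.Agent.Y214.LinSub
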