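import Mathlib
import Pool.Agent.Y214.LinSub.Fam

set_option autoImplicit false

namespace Pool.Agent.Y214.LinSub

open Polynomial

/-- The conclusion for one field and one degree. -/
def Bad (F : Type*) [Field F] (d : ℕ) : Prop :=
  ∃ f : MvPolynomial (Fin 2) F,
    Irreducible f ∧
    Irreducible (MvPolynomial.map (algebraMap F (AlgebraicClosure F)) f) ∧
    f.totalDegree = d ∧
    ∀ a b : F, ¬ Irreducible (MvPolynomial.aeval ![C a * X + C b, (X : F[X])] f)

section

variable {F : Type*} [Field F] [Finite F] (p : ℕ) [Fact p.Prime] [CharP F p]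

theorem bad0 (hp2 : p ≠ 2) {d : ℕ} (hpd : p < d) (hd : Odd d) (hnd : ¬ p ∣ d)
    (hsq : ¬ IsSquare ((-1) ^ ((d - 1) / 2) * (d : F))) : Bad F d := by
  classical
  have := Fintype.ofFinite F
  have hp : p.Prime := Fact.out
  have hK2 : ringChar F ≠ 2 := ringChar_ne_two p hp2
  have hdF : (d : F) ≠ 0 := by rwa [Ne, CharP.cast_eq_zero_iff F p d]
  have hdA : (d : AlgebraicClosure F) ≠ 0 := by
    have : CharP (AlgebraicClosure F) p :=
      charP_of_injective_algebraMap (algebraMap F (AlgebraicClosure F)).injective p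
    rwa [Ne, CharP.cast_eq_zero_iff (AlgebraicClosure F) p d]
  have hd1 : 1 < d := by have := hp.two_le; omega
  refine ⟨MvPolynomial.X 0 ^ p + MvPolynomial.X 1 ^ d + 1, irr0 hp hd1 hdF, ?_, ?_, ?_⟩
  · have h := irr0 (K := AlgebraicClosure F) hp hd1 hdA
    simpa using h
  · have e : (MvPolynomial.X 0 ^ p + MvPolynomial.X 1 ^ d + 1 : MvPolynomial (Fin 2) F) =
        MvPolynomial.C 1 * MvPolynomial.X 0 ^ p * MvPolynomial.X 1 ^ 0 +
        MvPolynomial.C 1 * MvPolynomial.X 0 ^ 0 * MvPolynomial.X 1 ^ d +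
        MvPolynomial.C 1 * MvPolynomial.X 0 ^ 0 * MvPolynomial.X 1 ^ 0 := by
      simp
    rw [e]
    rw [tdeg (i := 0) (j := d)]
    · simp
    · refine (MvPolynomial.totalDegree_add _ _).trans (max_le ?_ ?_)
      · refine (MvPolynomial.totalDegree_add _ _).trans (max_le ?_ ?_)
        · exact (mono_le _ _ _).trans (by omega)
        · exact (mono_le _ _ _).trans (by omega)
      · exact (mono_le _ _ _).trans (by omega)
    · rw [MvPolynomial.coeff_add, MvPolynomial.coeff_add, coeff_mono, coeff_mono, coeff_mono,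
        if_neg (by omega), if_pos (by omega), if_neg (by omega)]
      simp
  · intro a b hg
    have e : MvPolynomial.aeval ![C a * X + C b, (X : F[X])]
        (MvPolynomial.X 0 ^ p + MvPolynomial.X 1 ^ d + 1 : MvPolynomial (Fin 2) F) =
        C 1 * X ^ d + (C (a ^ p) * X ^ p + C (b ^ p + 1)) := by
      simp only [map_add, map_pow, MvPolynomial.aeval_X, Matrix.cons_val_zero,
        Matrix.cons_val_one, map_one]
      rw [add_pow_char (p := p) (C a * X : F[X]) (C b), mul_pow]
      simp only [C_pow, C_1, one_mul]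
      ring
    rw [e] at hg
    set g : F[X] := C 1 * X ^ d + (C (a ^ p) * X ^ p + C (b ^ p + 1)) with hgdef
    have hr : (C (a ^ p) * X ^ p + C (b ^ p + 1) : F[X]).natDegree < d := by
      refine lt_of_le_of_lt ?_ hpd
      exact (natDegree_add_le _ _).trans (max_le (natDegree_C_mul_X_pow_le _ _)
        (by rw [natDegree_C]; exact Nat.zero_le _))
    obtain ⟨h1, h2⟩ := lead_aux (K := F) one_ne_zero hr
    have h3 : derivative g = C (d : F) * X ^ (d - 1) := by
      rw [hgdef]
      rw [derivative_add, derivative_C_mul_X_pow, derivative_add, derivative_C_mul_X_pow,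
        derivative_C, CharP.cast_eq_zero F p]
      simp
    have h4 := parity hK2 hg
    rw [h3, char_norm_monomial hg, h1, h2, MulChar.map_one, one_pow, one_mul, one_mul] at h4
    have h0 : g.eval 0 ≠ 0 := by
      intro h0
      have hX : X ∣ g := by rw [X_dvd_iff, coeff_zero_eq_eval_zero, h0]
      obtain ⟨k, hk⟩ := hX
      rcases hg.isUnit_or_isUnit hk with h | h
      · exact not_isUnit_X h
      · have h5 : g.natDegree = 1 := by
          rw [hk, natDegree_mul X_ne_zero h.ne_zero, natDegree_X, natDegree_eq_zero_of_isUnit h]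
        rw [h1] at h5
        omega
    have hev : Even (d - 1) := by obtain ⟨t, rfl⟩ := hd; exact ⟨t, by omega⟩
    have hm1 : (-1 : F) ≠ 0 := neg_ne_zero.2 one_ne_zero
    rw [char_pow_odd hm1 hd, ← map_mul, char_pow_even (mul_ne_zero hm1 h0) hev, mul_one,
      char_pow_odd hdF hd, hev.neg_one_pow] at h4
    apply hsq
    rw [← quadraticChar_one_iff_isSquare (mul_ne_zero (pow_ne_zero _ hm1) hdF), map_mul, map_pow,
      ← h4]
    congr 1
    obtain ⟨t, rfl⟩ := hd
    have e1 : (2 * t + 1) * (2 * t + 1 - 1) / 2 = t * (2 * t + 1) := by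
      rw [show (2 * t + 1) * (2 * t + 1 - 1) = 2 * (t * (2 * t + 1)) by
        rw [Nat.add_sub_cancel]; ring, Nat.mul_div_cancel_left _ (by norm_num)]
    have e2 : (2 * t + 1 - 1) / 2 = t := by omega
    rw [e1, e2, pow_mul, ← map_pow (quadraticChar F) (-1) t,
      char_pow_odd (pow_ne_zero _ hm1) ⟨t, rfl⟩]

theorem card_mod_four {F : Type*} [Field F] [Fintype F] [DecidableEq F] (hF : ringChar F ≠ 2)
    (h : Nat.card F % 4 = 1) : quadraticChar F (-1) = 1 := by
  rw [quadraticChar_one_iff_isSquare (neg_ne_zero.2 one_ne_zero), FiniteField.isSquare_neg_one_iff,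
    ← Nat.card_eq_fintype_card, h]
  norm_num

theorem bad1 (hp2 : p ≠ 2) {d : ℕ} (hpd : p < d) (hnd : p ∣ d)
    (hdd : Odd d ∨ Even d ∧ Nat.card F % 4 = 1) : Bad F d := by
  classical
  have := Fintype.ofFinite F
  have hp : p.Prime := Fact.out
  have hK2 : ringChar F ≠ 2 := ringChar_ne_two p hp2
  have hm1 : (-1 : F) ≠ 0 := neg_ne_zero.2 one_ne_zero
  have hdF : (d : F) = 0 := (CharP.cast_eq_zero_iff F p d).2 hnd
  have hdA : (d : AlgebraicClosure F) = 0 := by
    have : CharP (AlgebraicClosure F) p :=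
      charP_of_injective_algebraMap (algebraMap F (AlgebraicClosure F)).injective p
    exact (CharP.cast_eq_zero_iff (AlgebraicClosure F) p d).2 hnd
  have hd1 : 1 < d := by have := hp.two_le; omega
  obtain ⟨κ, hκ, hχ⟩ : ∃ κ : F, κ ≠ 0 ∧
      quadraticChar F (-1) ^ (d * (d - 1) / 2) * quadraticChar F κ ^ d ≠ (-1) ^ (d - 1) := by
    rcases hdd with hd | ⟨hd, h4⟩
    · have hs : - quadraticChar F (-1) ^ (d * (d - 1) / 2) = 1 ∨
          - quadraticChar F (-1) ^ (d * (d - 1) / 2) = -1 := by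
        rcases quadraticChar_dichotomy hm1 with h | h
        · right; rw [h, one_pow]
        · rw [h]
          rcases neg_one_pow_eq_or ℤ (d * (d - 1) / 2) with h' | h' <;> rw [h'] <;> norm_num
      obtain ⟨κ, hκ, hχ⟩ := exists_char hK2 hs
      refine ⟨κ, hκ, ?_⟩
      have hev : Even (d - 1) := by obtain ⟨t, rfl⟩ := hd; exact ⟨t, by omega⟩
      rw [char_pow_odd hκ hd, hχ, hev.neg_one_pow]
      have h7 := char_pow_even hm1 (even_two_mul (d * (d - 1) / 2))
      rw [two_mul, pow_add] at h7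
      intro h8
      have h9 : (-1 : ℤ) = 1 := by linear_combination h7 + h8
      norm_num at h9
    · refine ⟨1, one_ne_zero, ?_⟩
      have hodd : Odd (d - 1) := by
        obtain ⟨t, ht⟩ := hd
        exact ⟨t - 1, by omega⟩
      rw [card_mod_four hK2 h4, MulChar.map_one, one_pow, one_pow, hodd.neg_one_pow]
      norm_num
  refine ⟨MvPolynomial.X 0 ^ p + MvPolynomial.C κ * MvPolynomial.X 1 ^ d + MvPolynomial.X 1,
    irr1 hp hd1 hκ hdF, ?_, ?_, ?_⟩
  · have h := irr1 (K := AlgebraicClosure F) (κ := algebraMap F _ κ) hp hd1 (by simpa using hκ) hdA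
    simpa using h
  · have e : (MvPolynomial.X 0 ^ p + MvPolynomial.C κ * MvPolynomial.X 1 ^ d +
        MvPolynomial.X 1 : MvPolynomial (Fin 2) F) =
        MvPolynomial.C 1 * MvPolynomial.X 0 ^ p * MvPolynomial.X 1 ^ 0 +
        MvPolynomial.C κ * MvPolynomial.X 0 ^ 0 * MvPolynomial.X 1 ^ d +
        MvPolynomial.C 1 * MvPolynomial.X 0 ^ 0 * MvPolynomial.X 1 ^ 1 := by
      simp
    rw [e]
    rw [tdeg (i := 0) (j := d)]
    · simp
    · refine (MvPolynomial.totalDegree_add _ _).trans (max_le ?_ ?_)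
      · refine (MvPolynomial.totalDegree_add _ _).trans (max_le ?_ ?_)
        · exact (mono_le _ _ _).trans (by omega)
        · exact (mono_le _ _ _).trans (by omega)
      · exact (mono_le _ _ _).trans (by omega)
    · rw [MvPolynomial.coeff_add, MvPolynomial.coeff_add, coeff_mono, coeff_mono, coeff_mono,
        if_neg (by omega), if_pos (by omega), if_neg (by omega)]
      simpa using hκ
  · intro a b hg
    have e : MvPolynomial.aeval ![C a * X + C b, (X : F[X])]
        (MvPolynomial.X 0 ^ p + MvPolynomial.C κ * MvPolynomial.X 1 ^ d + MvPolynomial.X 1 :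
          MvPolynomial (Fin 2) F) =
        C κ * X ^ d + (C (a ^ p) * X ^ p + X + C (b ^ p)) := by
      simp only [map_add, map_pow, map_mul, MvPolynomial.aeval_X, Matrix.cons_val_zero,
        Matrix.cons_val_one, MvPolynomial.aeval_C]
      rw [add_pow_char (p := p) (C a * X : F[X]) (C b), mul_pow]
      simp only [C_pow, algebraMap_eq]
      ring
    rw [e] at hg
    exact hχ (fam1 p hp2 hnd hpd hκ _ _ hg)

theorem bad2 (hp2 : p ≠ 2) {m : ℕ} (hm : p < m) (hnd : ¬ p ∣ m) : Bad F (2 * m) := by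
  classical
  have := Fintype.ofFinite F
  have hp : p.Prime := Fact.out
  have hK2 : ringChar F ≠ 2 := ringChar_ne_two p hp2
  have hm1 : (-1 : F) ≠ 0 := neg_ne_zero.2 one_ne_zero
  have hε : ((-1) ^ m : F) ≠ 0 := pow_ne_zero _ hm1
  have hpd : ¬ p ∣ 2 * m := by
    rw [hp.dvd_mul]
    rintro (h | h)
    · have := (Nat.prime_dvd_prime_iff_eq hp Nat.prime_two).1 h
      exact hp2 this
    · exact hnd h
  have hdF : ((2 * m : ℕ) : F) ≠ 0 := by rwa [Ne, CharP.cast_eq_zero_iff F p]
  have hdA : ((2 * m : ℕ) : AlgebraicClosure F) ≠ 0 := by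
    have : CharP (AlgebraicClosure F) p :=
      charP_of_injective_algebraMap (algebraMap F (AlgebraicClosure F)).injective p
    rwa [Ne, CharP.cast_eq_zero_iff (AlgebraicClosure F) p]
  have hd1 : 1 < 2 * m := by have := hp.two_le; omega
  refine ⟨MvPolynomial.X 0 ^ p * MvPolynomial.X 1 ^ p +
    MvPolynomial.C ((-1) ^ m) * MvPolynomial.X 1 ^ (2 * m) + 1, irr2 hp hd1 hε hdF, ?_, ?_, ?_⟩
  · have h := irr2 (K := AlgebraicClosure F) (κ := algebraMap F _ ((-1) ^ m)) hp hd1
      (by simpa using hε) hdA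
    simpa using h
  · have e : (MvPolynomial.X 0 ^ p * MvPolynomial.X 1 ^ p +
        MvPolynomial.C ((-1) ^ m) * MvPolynomial.X 1 ^ (2 * m) + 1 : MvPolynomial (Fin 2) F) =
        MvPolynomial.C 1 * MvPolynomial.X 0 ^ p * MvPolynomial.X 1 ^ p +
        MvPolynomial.C ((-1) ^ m) * MvPolynomial.X 0 ^ 0 * MvPolynomial.X 1 ^ (2 * m) +
        MvPolynomial.C 1 * MvPolynomial.X 0 ^ 0 * MvPolynomial.X 1 ^ 0 := by
      simp only [MvPolynomial.C_1, one_mul, pow_zero, mul_one]
    rw [e]
    rw [tdeg (i := 0) (j := 2 * m)]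
    · simp
    · refine (MvPolynomial.totalDegree_add _ _).trans (max_le ?_ ?_)
      · refine (MvPolynomial.totalDegree_add _ _).trans (max_le ?_ ?_)
        · exact (mono_le _ _ _).trans (by omega)
        · exact (mono_le _ _ _).trans (by omega)
      · exact (mono_le _ _ _).trans (by omega)
    · rw [MvPolynomial.coeff_add, MvPolynomial.coeff_add, coeff_mono, coeff_mono, coeff_mono,
        if_neg (by omega), if_pos (by omega), if_neg (by omega), zero_add, add_zero]
      exact hε
  · intro a b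
    have e : MvPolynomial.aeval ![C a * X + C b, (X : F[X])]
        (MvPolynomial.X 0 ^ p * MvPolynomial.X 1 ^ p +
          MvPolynomial.C ((-1) ^ m) * MvPolynomial.X 1 ^ (2 * m) + 1 :
          MvPolynomial (Fin 2) F) =
        C ((-1) ^ m) * X ^ (2 * m) + (C (a ^ p) * X ^ (2 * p) + C (b ^ p) * X ^ p + 1) := by
      simp only [map_add, map_pow, map_mul, MvPolynomial.aeval_X, Matrix.cons_val_zero,
        Matrix.cons_val_one, MvPolynomial.aeval_C, map_one]
      rw [add_pow_char (p := p) (C a * X : F[X]) (C b), mul_pow]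
      simp only [C_pow, algebraMap_eq]
      ring
    rw [e]
    exact fam2 p hp2 hnd hm _ _

theorem bad3 (hp2 : p ≠ 2) {m : ℕ} (hm : p < m) (hnd : p ∣ m) : Bad F (2 * m) := by
  classical
  have := Fintype.ofFinite F
  have hp : p.Prime := Fact.out
  have hK2 : ringChar F ≠ 2 := ringChar_ne_two p hp2
  have hm1 : (-1 : F) ≠ 0 := neg_ne_zero.2 one_ne_zero
  have hε : ((-1) ^ m : F) ≠ 0 := pow_ne_zero _ hm1
  have hpd : p ∣ 2 * m := dvd_mul_of_dvd_right hnd _
  have hdF : ((2 * m : ℕ) : F) = 0 := by rwa [CharP.cast_eq_zero_iff F p]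
  have h2F : (2 : F) ≠ 0 := Ring.two_ne_zero hK2
  have h2A : (2 : AlgebraicClosure F) ≠ 0 := by
    intro h
    apply h2F
    apply (algebraMap F (AlgebraicClosure F)).injective
    rw [map_ofNat, h, map_zero]
  have hdA : ((2 * m : ℕ) : AlgebraicClosure F) = 0 := by
    have : CharP (AlgebraicClosure F) p :=
      charP_of_injective_algebraMap (algebraMap F (AlgebraicClosure F)).injective p
    rwa [CharP.cast_eq_zero_iff (AlgebraicClosure F) p]
  have hd1 : 2 < 2 * m := by have := hp.two_le; omega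
  refine ⟨MvPolynomial.X 0 ^ p * MvPolynomial.X 1 ^ p +
    MvPolynomial.C ((-1) ^ m) * MvPolynomial.X 1 ^ (2 * m) + MvPolynomial.X 1 ^ 2 + 1,
    irr3 hp hd1 hε hdF h2F, ?_, ?_, ?_⟩
  · have h := irr3 (K := AlgebraicClosure F) (κ := algebraMap F _ ((-1) ^ m)) hp hd1
      (by simpa using hε) hdA h2A
    simpa using h
  · have e : (MvPolynomial.X 0 ^ p * MvPolynomial.X 1 ^ p +
        MvPolynomial.C ((-1) ^ m) * MvPolynomial.X 1 ^ (2 * m) + MvPolynomial.X 1 ^ 2 + 1 :
          MvPolynomial (Fin 2) F) =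
        MvPolynomial.C 1 * MvPolynomial.X 0 ^ p * MvPolynomial.X 1 ^ p +
        MvPolynomial.C ((-1) ^ m) * MvPolynomial.X 0 ^ 0 * MvPolynomial.X 1 ^ (2 * m) +
        MvPolynomial.C 1 * MvPolynomial.X 0 ^ 0 * MvPolynomial.X 1 ^ 2 +
        MvPolynomial.C 1 * MvPolynomial.X 0 ^ 0 * MvPolynomial.X 1 ^ 0 := by
      simp only [MvPolynomial.C_1, one_mul, pow_zero, mul_one]
    rw [e]
    rw [tdeg (i := 0) (j := 2 * m)]
    · simp
    · refine (MvPolynomial.totalDegree_add _ _).trans (max_le ?_ ?_)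
      · refine (MvPolynomial.totalDegree_add _ _).trans (max_le ?_ ?_)
        · refine (MvPolynomial.totalDegree_add _ _).trans (max_le ?_ ?_)
          · exact (mono_le _ _ _).trans (by omega)
          · exact (mono_le _ _ _).trans (by omega)
        · exact (mono_le _ _ _).trans (by omega)
      · exact (mono_le _ _ _).trans (by omega)
    · rw [MvPolynomial.coeff_add, MvPolynomial.coeff_add, MvPolynomial.coeff_add, coeff_mono,
        coeff_mono, coeff_mono, coeff_mono,
        if_neg (by omega), if_pos (by omega), if_neg (by omega), if_neg (by omega), zero_add,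
        add_zero, add_zero]
      exact hε
  · intro a b
    have e : MvPolynomial.aeval ![C a * X + C b, (X : F[X])]
        (MvPolynomial.X 0 ^ p * MvPolynomial.X 1 ^ p +
          MvPolynomial.C ((-1) ^ m) * MvPolynomial.X 1 ^ (2 * m) + MvPolynomial.X 1 ^ 2 + 1 :
          MvPolynomial (Fin 2) F) =
        C ((-1) ^ m) * X ^ (2 * m) +
          (C (a ^ p) * X ^ (2 * p) + C (b ^ p) * X ^ p + X ^ 2 + 1) := by
      simp only [map_add, map_pow, map_mul, MvPolynomial.aeval_X, Matrix.cons_val_zero,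
        Matrix.cons_val_one, MvPolynomial.aeval_C, map_one]
      rw [add_pow_char (p := p) (C a * X : F[X]) (C b), mul_pow]
      simp only [C_pow, algebraMap_eq]
      ring
    rw [e]
    exact fam3 p hp2 hnd hm _ _

theorem bad4 (hp2 : p ≠ 2) {j : ℕ} (hj : Odd j) (hpj : ¬ p ∣ j) : Bad F (2 * p + j) := by
  classical
  have := Fintype.ofFinite F
  have hp : p.Prime := Fact.out
  have hpodd : Odd p := hp.odd_of_ne_two hp2
  have hK2 : ringChar F ≠ 2 := ringChar_ne_two p hp2
  have hm1 : (-1 : F) ≠ 0 := neg_ne_zero.2 one_ne_zero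
  have hjF : (j : F) ≠ 0 := by rwa [Ne, CharP.cast_eq_zero_iff F p]
  have hcA : CharP (AlgebraicClosure F) p :=
    charP_of_injective_algebraMap (algebraMap F (AlgebraicClosure F)).injective p
  have hs : - (quadraticChar F (-1) ^ ((2 * p + j) * (2 * p + j - 1) / 2) *
      quadraticChar F (j : F)) = 1 ∨ - (quadraticChar F (-1) ^ ((2 * p + j) * (2 * p + j - 1) / 2) *
      quadraticChar F (j : F)) = -1 := by
    rw [← map_pow, ← map_mul]
    rcases quadraticChar_dichotomy (F := F) (a := (-1) ^ ((2 * p + j) * (2 * p + j - 1) / 2) * (j : F))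
      (mul_ne_zero (pow_ne_zero _ hm1) hjF) with h | h <;> rw [h] <;> norm_num
  obtain ⟨κ, hκ, hχ⟩ := exists_char hK2 hs
  have hκp : κ ^ p ≠ 0 := pow_ne_zero _ hκ
  have hχp : quadraticChar F (κ ^ p) = - (quadraticChar F (-1) ^ ((2 * p + j) * (2 * p + j - 1) / 2) *
      quadraticChar F (j : F)) := by
    rw [map_pow, char_pow_odd hκ hpodd, hχ]
  refine ⟨MvPolynomial.X 1 ^ (2 * p) + MvPolynomial.X 0 ^ (p + j) * MvPolynomial.X 1 ^ p +
      MvPolynomial.C (κ ^ p) * MvPolynomial.X 0 ^ (2 * p), irr4 hp hpj hκ, ?_, ?_, ?_⟩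
  · have h := irr4 (K := AlgebraicClosure F) (κ := algebraMap F _ κ) hp hpj (by simpa using hκ)
    simpa using h
  · have e : (MvPolynomial.X 1 ^ (2 * p) + MvPolynomial.X 0 ^ (p + j) * MvPolynomial.X 1 ^ p +
        MvPolynomial.C (κ ^ p) * MvPolynomial.X 0 ^ (2 * p) : MvPolynomial (Fin 2) F) =
        MvPolynomial.C 1 * MvPolynomial.X 0 ^ 0 * MvPolynomial.X 1 ^ (2 * p) +
        MvPolynomial.C 1 * MvPolynomial.X 0 ^ (p + j) * MvPolynomial.X 1 ^ p +
        MvPolynomial.C (κ ^ p) * MvPolynomial.X 0 ^ (2 * p) * MvPolynomial.X 1 ^ 0 := by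
      simp only [MvPolynomial.C_1, one_mul, pow_zero, mul_one]
    have hj0 : 0 < j := hj.pos
    rw [e]
    rw [tdeg (i := p + j) (j := p)]
    · ring
    · refine (MvPolynomial.totalDegree_add _ _).trans (max_le ?_ ?_)
      · refine (MvPolynomial.totalDegree_add _ _).trans (max_le ?_ ?_)
        · exact (mono_le _ _ _).trans (by omega)
        · exact (mono_le _ _ _).trans (by omega)
      · exact (mono_le _ _ _).trans (by omega)
    · have := hp.pos
      rw [MvPolynomial.coeff_add, MvPolynomial.coeff_add, coeff_mono, coeff_mono, coeff_mono,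
        if_neg (by omega), if_pos (by omega), if_neg (by omega), zero_add, add_zero]
      exact one_ne_zero
  · intro a b
    have e : MvPolynomial.aeval ![C a * X + C b, (X : F[X])]
        (MvPolynomial.X 1 ^ (2 * p) + MvPolynomial.X 0 ^ (p + j) * MvPolynomial.X 1 ^ p +
          MvPolynomial.C (κ ^ p) * MvPolynomial.X 0 ^ (2 * p) :
          MvPolynomial (Fin 2) F) =
        X ^ (2 * p) + X ^ p * (C a * X + C b) ^ (p + j) +
          C (κ ^ p) * (C a * X + C b) ^ (2 * p) := by
      simp only [map_add, map_pow, map_mul, MvPolynomial.aeval_X, Matrix.cons_val_zero,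
        Matrix.cons_val_one, MvPolynomial.aeval_C, algebraMap_eq]
      ring
    rw [e]
    exact fam4 p hp2 hj hpj hκp hχp a b

/-- Everything for odd characteristic. -/
theorem bad_odd (hp2 : p ≠ 2) {d : ℕ}
    (hd : 2 * p < d ∨ d = 2 * p ∧ Nat.card F % 4 = 1 ∨
      p < d ∧ Odd d ∧ ¬ p ∣ d ∧ ¬ IsSquare ((-1) ^ ((d - 1) / 2) * (d : F))) : Bad F d := by
  have hp : p.Prime := Fact.out
  have := hp.pos
  rcases hd with hd | ⟨hd, h4⟩ | ⟨hd, h1, h2, h3⟩
  · rcases Nat.even_or_odd d with he | ho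
    · obtain ⟨m, hm⟩ := he
      rw [← two_mul] at hm
      subst hm
      by_cases hpm : p ∣ m
      · exact bad3 p hp2 (by omega) hpm
      · exact bad2 p hp2 (by omega) hpm
    · by_cases hpd : p ∣ d
      · exact bad1 p hp2 (by omega) hpd (Or.inl ho)
      · obtain ⟨j, rfl⟩ := Nat.exists_eq_add_of_le hd.le
        have hj : Odd j := by
          rw [Nat.odd_add] at ho
          rcases Nat.even_or_odd j with h | h
          · have := ho.2 h
            exact absurd this (Nat.not_odd_iff_even.2 (even_two_mul p))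
          · exact h
        have hpj : ¬ p ∣ j := fun h => hpd (dvd_add (dvd_mul_left _ _) h)
        exact bad4 p hp2 hj hpj
  · subst hd
    exact bad1 p hp2 (by omega) (dvd_mul_left _ _) (Or.inr ⟨even_two_mul p, h4⟩)
  · exact bad0 p hp2 hd h1 h2 h3

end

end Pool.Agent.Y214.LinSub
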