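import Mathlib
import Pool.Agent.Y214.LinSub.MainOdd
import Pool.Agent.Y214.LinSub.Affine

set_option autoImplicit false

namespace Pool.Agent.Y214.LinSub

open Polynomial

/-- The additive family: degrees `p ^ e` with `e ≥ 2` and `e + 1 ≤ p ^ (e - 1)`. -/
theorem bad_affine {F : Type*} [Field F] [Finite F] (p : ℕ) [Fact p.Prime] [CharP F p] {e : ℕ}
    (he : 2 ≤ e) (hpe : e + 1 ≤ p ^ (e - 1)) : Bad F (p ^ e) := by
  have hp : p.Prime := Fact.out
  obtain ⟨n, hcard⟩ : ∃ n : ℕ, Nat.card F = p ^ n := by
    have := Fintype.ofFinite F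
    obtain ⟨n, -, hn⟩ := FiniteField.card F p
    exact ⟨n, by rw [Nat.card_eq_fintype_card, hn]⟩
  refine ⟨MvPolynomial.X 0 ^ (p ^ e) - MvPolynomial.X 0 + MvPolynomial.X 1 ^ p,
    irreducible_f p e he hp, ?_, totalDegree_f p e he hp, ?_⟩
  · have := irreducible_f (K := AlgebraicClosure F) p e he hp
    simpa using this
  · intro a b
    have hev : MvPolynomial.aeval
        ![Polynomial.C a * Polynomial.X + Polynomial.C b, (Polynomial.X : F[X])]
        (MvPolynomial.X 0 ^ (p ^ e) - MvPolynomial.X 0 + MvPolynomial.X 1 ^ p :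
          MvPolynomial (Fin 2) F)
        = C (a ^ (p ^ e)) * X ^ (p ^ e) + X ^ p - C a * X + C (b ^ (p ^ e) - b) := by
      simp only [map_add, map_sub, map_pow, MvPolynomial.aeval_X, Matrix.cons_val_zero,
        Matrix.cons_val_one]
      rw [add_pow_char_pow, mul_pow]
      ring
    rw [hev]
    by_cases ha : a = 0
    · subst ha
      obtain ⟨c, hc⟩ : ∃ c : F, c ^ p = b ^ (p ^ e) - b := by
        have : Function.Surjective (frobenius F p) :=
          Finite.surjective_of_injective (frobenius_inj _ p)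
        exact this _
      have h1 : (C ((0 : F) ^ (p ^ e)) * X ^ (p ^ e) + X ^ p
          - C (0 : F) * X + C (b ^ (p ^ e) - b) : F[X])
          = (X + C c) ^ p := by
        rw [add_pow_char, ← C_pow, hc, zero_pow (pow_ne_zero _ hp.ne_zero)]
        simp
      rw [h1]
      exact not_irreducible_pow hp.one_lt.ne'
    · exact affine_not_irreducible p n e he hpe hcard _ _ _ (pow_ne_zero _ ha)

end Pool.Agent.Y214.LinSub
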